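import Pool.Agent.Lib.MP_648c71_nt.Hp.Boxes
import Pool.Agent.Lib.MP_648c71_nt.Qap.E1
import Pool.Agent.Lib.MP_648c71_nt.Qap.E2

/-!
Moments of the divisor function over quadratic values and over vectors of the box.
-/

namespace Pool.Agent.Lib.MP_648c71_nt.Hp

open QuadraticAlgebra Finset

variable {b c : ℤ}

/-- the divisor function of an integer -/
def ta (m : ℤ) : ℕ := m.natAbs.divisors.card

theorem ta_pos {m : ℤ} (h : m ≠ 0) : 1 ≤ ta m := by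
  unfold ta
  exact Finset.card_pos.mpr (Nat.nonempty_divisors.mpr (by simpa using h))

theorem card_divisors_mul_le (m n : ℕ) : (m * n).divisors.card ≤ m.divisors.card * n.divisors.card := by
  rw [Nat.divisors_mul]
  exact Finset.card_mul_le

theorem exists_sd {m : ℤ} (hm : 0 < m) : ∃ d : ℕ, 0 < d ∧ (d : ℤ) ∣ m ∧ (d : ℤ) ^ 2 ≤ m ∧
    ta m ≤ 2 * d.divisors.card ^ 4 := by
  obtain ⟨d, h1, h2, h3⟩ := Qap.exists_small_divisor m.natAbs (by omega)
  refine ⟨d, Nat.pos_of_dvd_of_pos h1 (by omega), Int.natCast_dvd.mpr h1, ?_, h3⟩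
  have : ((d ^ 2 : ℕ) : ℤ) ≤ (m.natAbs : ℤ) := by exact_mod_cast h2
  push_cast at this
  rw [abs_of_pos hm] at this
  exact this

/-- number of `n ∈ [1,X]` with `d ∣ f(n)` -/
theorem card_ff_dvd (hD : b ^ 2 - 4 * c ≠ 0) {d : ℕ} (hd : 0 < d) (X : ℕ) :
    (((Icc 1 X).filter (fun n : ℕ => (d : ℤ) ∣ ff b c n)).card : ℝ) ≤
      (b ^ 2 - 4 * c).natAbs * d.divisors.card * ((X : ℝ) / d + 1) := by
  classical
  have h1 : ((Icc 1 X).filter (fun n : ℕ => (d : ℤ) ∣ ff b c n)).card ≤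
      (rts b c d 1 ×ˢ range (X / d + 1)).card := by
    apply Finset.card_le_card_of_injOn (fun n => (n % d, n / d))
    · intro n hn
      rw [mem_coe, mem_filter, mem_Icc] at hn
      rw [mem_coe, mem_product]
      constructor
      · unfold rts
        rw [mem_filter, mem_range]
        refine ⟨Nat.mod_lt _ hd, ?_⟩
        have e : ((n : ℤ)) = (d : ℤ) * ((n / d : ℕ) : ℤ) + ((n % d : ℕ) : ℤ) := by
          have := Nat.div_add_mod n d
          exact_mod_cast this.symm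
        have h2 := hn.2
        have e2 : ff b c n - (((n % d : ℕ) : ℤ) ^ 2 + b * ((n % d : ℕ) : ℤ) * 1 + c * 1 ^ 2) =
            (d : ℤ) * (((n / d : ℕ) : ℤ) * ((n : ℤ) + ((n % d : ℕ) : ℤ) + b)) := by
          unfold ff
          have e3 : ((n % d : ℕ) : ℤ) = (n : ℤ) - (d : ℤ) * ((n / d : ℕ) : ℤ) := by linarith
          rw [e3]; ring
        have h3 : (d : ℤ) ∣ ff b c n - (((n % d : ℕ) : ℤ) ^ 2 + b * ((n % d : ℕ) : ℤ) * 1 + c * 1 ^ 2) := by
          rw [e2]; exact dvd_mul_right _ _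
        have := dvd_sub h2 h3
        simpa using this
      · rw [mem_range]
        exact Nat.lt_succ_of_le (Nat.div_le_div_right hn.1.2)
    · intro n _ m _ hnm
      simp only [Prod.mk.injEq] at hnm
      rw [← Nat.div_add_mod n d, ← Nat.div_add_mod m d, hnm.1, hnm.2]
  rw [card_product, card_range] at h1
  have h2 : (((Icc 1 X).filter (fun n : ℕ => (d : ℤ) ∣ ff b c n)).card : ℝ) ≤
      (rts b c d 1).card * ((X / d : ℕ) + 1) := by exact_mod_cast h1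
  have h3 : (((X / d : ℕ)) : ℝ) ≤ (X : ℝ) / d := Nat.cast_div_le
  have h4 : ((rts b c d 1).card : ℝ) ≤ (b ^ 2 - 4 * c).natAbs * d.divisors.card := by
    exact_mod_cast card_rts hD hd 1 isCoprime_one_left
  calc _ ≤ _ := h2
    _ ≤ _ := by gcongr

/-- abstract moment bound: a finite family of positive integers `m i ≤ Z²`, such that at most
`A τ(d) B/d` of them are divisible by `d ≤ Z` -/
theorem moment_aux {ι : Type*} (s : Finset ι) (m : ι → ℤ) (Z : ℕ) (hZ : 1 ≤ Z) (B : ℝ)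
    (hB : 0 ≤ B) (hm : ∀ i ∈ s, 0 < m i ∧ m i ≤ (Z : ℤ) ^ 2)
    (hc : ∀ d : ℕ, 0 < d → d ≤ Z →
      ((s.filter (fun i => (d : ℤ) ∣ m i)).card : ℝ) ≤ B * d.divisors.card / d) (K : ℕ) :
    ∑ i ∈ s, (ta (m i) : ℝ) ^ K ≤ 2 ^ K * B * (1 + Real.log Z) ^ (2 ^ (4 * K + 1)) := by
  classical
  have hex : ∀ i ∈ s, ∃ d : ℕ, 0 < d ∧ (d : ℤ) ∣ m i ∧ (d : ℤ) ^ 2 ≤ m i ∧
      ta (m i) ≤ 2 * d.divisors.card ^ 4 := fun i hi => exists_sd (hm i hi).1
  choose! d hd1 hd2 hd3 hd4 using hex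
  have hdZ : ∀ i ∈ s, d i ≤ Z := by
    intro i hi
    have h1 := (hd3 i hi).trans (hm i hi).2
    have h2 : ((d i : ℤ)) ≤ Z := by
      by_contra hlt
      push Not at hlt
      have : (Z : ℤ) ^ 2 < (d i : ℤ) ^ 2 := by
        apply pow_lt_pow_left₀ hlt (by positivity) (by norm_num)
      linarith
    exact_mod_cast h2
  have hmaps : ∀ i ∈ s, d i ∈ Icc 1 Z := fun i hi => mem_Icc.mpr ⟨hd1 i hi, hdZ i hi⟩
  rw [← sum_fiberwise_of_maps_to hmaps]
  have h1 : ∀ e ∈ Icc 1 Z, ∑ i ∈ s.filter (fun i => d i = e), (ta (m i) : ℝ) ^ K ≤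
      2 ^ K * B * ((e.divisors.card : ℝ) ^ (4 * K + 1) / e) := by
    intro e he
    rw [mem_Icc] at he
    have heR : (0 : ℝ) < e := by exact_mod_cast he.1
    have h2 : ∀ i ∈ s.filter (fun i => d i = e), (ta (m i) : ℝ) ^ K ≤
        2 ^ K * (e.divisors.card : ℝ) ^ (4 * K) := by
      intro i hi
      rw [mem_filter] at hi
      have h3 := hd4 i hi.1
      rw [hi.2] at h3
      have h4 : (ta (m i) : ℝ) ≤ 2 * (e.divisors.card : ℝ) ^ 4 := by exact_mod_cast h3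
      calc (ta (m i) : ℝ) ^ K ≤ (2 * (e.divisors.card : ℝ) ^ 4) ^ K := by gcongr
        _ = _ := by rw [mul_pow, ← pow_mul]
    have h3 : ((s.filter (fun i => d i = e)).card : ℝ) ≤ B * e.divisors.card / e := by
      refine le_trans ?_ (hc e he.1 he.2)
      have : s.filter (fun i => d i = e) ⊆ s.filter (fun i => (e : ℤ) ∣ m i) := by
        intro i hi
        rw [mem_filter] at hi ⊢
        refine ⟨hi.1, ?_⟩
        rw [← hi.2]; exact hd2 i hi.1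
      exact_mod_cast card_le_card this
    calc ∑ i ∈ s.filter (fun i => d i = e), (ta (m i) : ℝ) ^ K
        ≤ ∑ i ∈ s.filter (fun i => d i = e), 2 ^ K * (e.divisors.card : ℝ) ^ (4 * K) :=
          sum_le_sum h2
      _ = (s.filter (fun i => d i = e)).card * (2 ^ K * (e.divisors.card : ℝ) ^ (4 * K)) := by
          rw [sum_const, nsmul_eq_mul]
      _ ≤ (B * e.divisors.card / e) * (2 ^ K * (e.divisors.card : ℝ) ^ (4 * K)) := by gcongr
      _ = 2 ^ K * B * ((e.divisors.card : ℝ) ^ (4 * K + 1) / e) := by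
          rw [pow_succ]; ring
  calc ∑ e ∈ Icc 1 Z, ∑ i ∈ s.filter (fun i => d i = e), (ta (m i) : ℝ) ^ K
      ≤ ∑ e ∈ Icc 1 Z, 2 ^ K * B * ((e.divisors.card : ℝ) ^ (4 * K + 1) / e) := sum_le_sum h1
    _ = 2 ^ K * B * ∑ e ∈ Icc 1 Z, ((e.divisors.card : ℝ) ^ (4 * K + 1) / e) := by
        rw [← mul_sum]
    _ ≤ 2 ^ K * B * (1 + Real.log Z) ^ (2 ^ (4 * K + 1)) := by
        gcongr
        exact Qap.sum_tau_pow_div_le (4 * K + 1) Z hZ

theorem log_mul_le {C X : ℕ} (hC : 1 ≤ C) (hX : 1 ≤ X) :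
    1 + Real.log ((C * X : ℕ) : ℝ) ≤ (1 + Real.log C) * (1 + Real.log X) := by
  have hC' : (0 : ℝ) < C := by exact_mod_cast hC
  have hX' : (0 : ℝ) < X := by exact_mod_cast hX
  push_cast
  rw [Real.log_mul hC'.ne' hX'.ne']
  have h1 : 0 ≤ Real.log C := Real.log_nonneg (by exact_mod_cast hC)
  have h2 : 0 ≤ Real.log X := Real.log_nonneg (by exact_mod_cast hX)
  nlinarith [mul_nonneg h1 h2]

/-- ROW (M1). `∑_{n ≤ X} τ(f(n))^K ≤ C X (1 + log X)^k` -/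
theorem moment_ff (hb : 1 ≤ b) (hc : 2 ≤ c) (hD : b ^ 2 - 4 * c ≠ 0) (K : ℕ) :
    ∃ (C : ℝ) (k : ℕ), 0 < C ∧ ∀ X : ℕ, 1 ≤ X →
      ∑ n ∈ Icc 1 X, (ta (ff b c n) : ℝ) ^ K ≤ C * X * (1 + Real.log X) ^ k := by
  obtain ⟨C2, hC2⟩ : ∃ C2 : ℕ, (C2 : ℤ) = C1 b c := ⟨(C1 b c).toNat, by unfold C1; omega⟩
  have hC21 : 1 ≤ C2 := by unfold C1 at hC2; omega
  set D : ℕ := (b ^ 2 - 4 * c).natAbs with hDdef
  refine ⟨2 ^ K * (D * (1 + C2)) * (1 + Real.log C2) ^ (2 ^ (4 * K + 1)) + 1, 2 ^ (4 * K + 1),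
    ?_, ?_⟩
  · have : 0 ≤ Real.log C2 := Real.log_nonneg (by exact_mod_cast hC21)
    positivity
  intro X hX
  have hXR : (1 : ℝ) ≤ X := by exact_mod_cast hX
  have hlogX : 0 ≤ Real.log X := Real.log_nonneg hXR
  have hlogC : 0 ≤ Real.log C2 := Real.log_nonneg (by exact_mod_cast hC21)
  have key := moment_aux (Icc 1 X) (fun n : ℕ => ff b c n) (C2 * X) (by
      exact Nat.mul_pos hC21 hX) ((D * (1 + C2)) * X) (by positivity) ?_ ?_ K
  · calc ∑ n ∈ Icc 1 X, (ta (ff b c n) : ℝ) ^ K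
        ≤ 2 ^ K * ((D * (1 + C2)) * X) * (1 + Real.log ((C2 * X : ℕ) : ℝ)) ^ (2 ^ (4 * K + 1)) := key
      _ ≤ 2 ^ K * ((D * (1 + C2)) * X) *
          ((1 + Real.log C2) * (1 + Real.log X)) ^ (2 ^ (4 * K + 1)) := by
          have : 0 ≤ Real.log ((C2 * X : ℕ) : ℝ) := Real.log_nonneg (by
              have : 1 ≤ C2 * X := Nat.mul_pos hC21 hX
              exact_mod_cast this)
          have h2 := log_mul_le hC21 hX
          gcongr
      _ = (2 ^ K * (D * (1 + C2)) * (1 + Real.log C2) ^ (2 ^ (4 * K + 1))) * X *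
          (1 + Real.log X) ^ (2 ^ (4 * K + 1)) := by rw [mul_pow]; ring
      _ ≤ _ := by
          gcongr
          linarith
  · intro n hn
    rw [mem_Icc] at hn
    refine ⟨ff_pos hb hc (by positivity), ?_⟩
    have h1 : (1 : ℤ) ≤ n := by exact_mod_cast hn.1
    have h2 : (n : ℤ) ≤ X := by exact_mod_cast hn.2
    have h3 : ff b c n ≤ C1 b c * (X : ℤ) ^ 2 := by
      unfold ff C1
      have h4 : (n : ℤ) ^ 2 ≤ (X : ℤ) ^ 2 := by nlinarith
      have h5 : (n : ℤ) ≤ (X : ℤ) ^ 2 := by nlinarith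
      have h6 : (1 : ℤ) ≤ (X : ℤ) ^ 2 := by nlinarith
      nlinarith
    rw [← hC2] at h3
    push_cast
    have h7 : (1 : ℤ) ≤ C2 := by exact_mod_cast hC21
    have h8 : (C2 : ℤ) ≤ (C2 : ℤ) ^ 2 := by nlinarith
    calc ff b c n ≤ C2 * (X : ℤ) ^ 2 := h3
      _ ≤ (C2 : ℤ) ^ 2 * (X : ℤ) ^ 2 := by gcongr
      _ = _ := by ring
  · intro d hd hdZ
    have hdR : (0 : ℝ) < d := by exact_mod_cast hd
    refine (card_ff_dvd hD hd X).trans ?_
    have h1 : (d : ℝ) ≤ C2 * X := by exact_mod_cast hdZ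
    have h2 : (X : ℝ) / d + 1 ≤ (1 + C2) * X / d := by
      rw [← sub_nonneg]
      have : (1 + C2) * X / d - ((X : ℝ) / d + 1) = (C2 * X - d) / d := by field_simp; ring
      rw [this]
      apply div_nonneg _ hdR.le
      linarith
    calc (D : ℝ) * d.divisors.card * ((X : ℝ) / d + 1)
        ≤ D * d.divisors.card * ((1 + C2) * X / d) := by gcongr
      _ = _ := by ring

/-- primitive version of (M2) -/
theorem moment_pbx (hb : 1 ≤ b) (hc : 2 ≤ c) (hD : b ^ 2 - 4 * c ≠ 0) (K : ℕ) :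
    ∃ (C : ℝ) (k : ℕ), 0 < C ∧ ∀ Y : ℕ, 1 ≤ Y →
      ∑ v ∈ pbx b c Y, (ta (nm v) : ℝ) ^ K ≤ C * Y ^ 2 * (1 + Real.log Y) ^ k := by
  obtain ⟨C2, hC2⟩ : ∃ C2 : ℕ, (C2 : ℤ) = C1 b c := ⟨(C1 b c).toNat, by unfold C1; omega⟩
  have hC21 : 1 ≤ C2 := by unfold C1 at hC2; omega
  set D : ℕ := (b ^ 2 - 4 * c).natAbs with hDdef
  refine ⟨2 ^ K * (D * (1 + C2)) * (1 + Real.log C2) ^ (2 ^ (4 * K + 1)) + 1, 2 ^ (4 * K + 1),
    ?_, ?_⟩
  · have : 0 ≤ Real.log C2 := Real.log_nonneg (by exact_mod_cast hC21)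
    positivity
  intro Y hY
  have hYR : (1 : ℝ) ≤ Y := by exact_mod_cast hY
  have hlogX : 0 ≤ Real.log Y := Real.log_nonneg hYR
  have hlogC : 0 ≤ Real.log C2 := Real.log_nonneg (by exact_mod_cast hC21)
  have key := moment_aux (pbx b c Y) (fun v => nm v) (C2 * Y) (by
      exact Nat.mul_pos hC21 hY) ((D * (1 + C2)) * (Y : ℝ) ^ 2) (by positivity) ?_ ?_ K
  · calc ∑ v ∈ pbx b c Y, (ta (nm v) : ℝ) ^ K
        ≤ 2 ^ K * ((D * (1 + C2)) * (Y : ℝ) ^ 2) *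
          (1 + Real.log ((C2 * Y : ℕ) : ℝ)) ^ (2 ^ (4 * K + 1)) := key
      _ ≤ 2 ^ K * ((D * (1 + C2)) * (Y : ℝ) ^ 2) *
          ((1 + Real.log C2) * (1 + Real.log Y)) ^ (2 ^ (4 * K + 1)) := by
          have : 0 ≤ Real.log ((C2 * Y : ℕ) : ℝ) := Real.log_nonneg (by
              have : 1 ≤ C2 * Y := Nat.mul_pos hC21 hY
              exact_mod_cast this)
          have h2 := log_mul_le hC21 hY
          gcongr
      _ = (2 ^ K * (D * (1 + C2)) * (1 + Real.log C2) ^ (2 ^ (4 * K + 1))) * (Y : ℝ) ^ 2 *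
          (1 + Real.log Y) ^ (2 ^ (4 * K + 1)) := by rw [mul_pow]; ring
      _ ≤ _ := by
          gcongr
          linarith
  · intro v hv
    rw [mem_pbx] at hv
    obtain ⟨h1, h2, h3⟩ := hv
    refine ⟨h1.nm_pos hb hc, ?_⟩
    have h4 := h1.nm_le hb hc
    rw [← hC2] at h4
    have h5 : v.re ^ 2 ≤ (Y : ℤ) ^ 2 := by
      have := h1.1
      nlinarith
    have h7 : (1 : ℤ) ≤ C2 := by exact_mod_cast hC21
    have h8 : (C2 : ℤ) ≤ (C2 : ℤ) ^ 2 := by nlinarith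
    push_cast
    calc nm v ≤ C2 * v.re ^ 2 := h4
      _ ≤ (C2 : ℤ) ^ 2 * (Y : ℤ) ^ 2 := by gcongr
      _ = _ := by ring
  · intro d hd hdZ
    have hdR : (0 : ℝ) < d := by exact_mod_cast hd
    refine (card_pbx_dvd hD hd Y).trans ?_
    have h1 : (d : ℝ) ≤ C2 * Y := by exact_mod_cast hdZ
    have h2 : (Y : ℝ) ^ 2 / d + 1 ≤ (1 + C2) * (Y : ℝ) ^ 2 / d := by
      rw [← sub_nonneg]
      have : (1 + C2) * (Y : ℝ) ^ 2 / d - ((Y : ℝ) ^ 2 / d + 1) = (C2 * (Y : ℝ) ^ 2 - d) / d := by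
        field_simp; ring
      rw [this]
      apply div_nonneg _ hdR.le
      have : (C2 : ℝ) * Y ≤ C2 * (Y : ℝ) ^ 2 := by
        have : (Y : ℝ) ≤ (Y : ℝ) ^ 2 := by nlinarith
        gcongr
      linarith
    calc (D : ℝ) * d.divisors.card * ((Y : ℝ) ^ 2 / d + 1)
        ≤ D * d.divisors.card * ((1 + C2) * (Y : ℝ) ^ 2 / d) := by gcongr
      _ = _ := by ring

theorem ta_cont_mul {v v0 : O b c} (g : ℕ) (h : nm v = (g : ℤ) ^ 2 * nm v0) :
    ta (nm v) ≤ g.divisors.card ^ 2 * ta (nm v0) := by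
  unfold ta
  rw [h, Int.natAbs_mul, Int.natAbs_pow, Int.natAbs_natCast]
  refine (card_divisors_mul_le _ _).trans ?_
  apply Nat.mul_le_mul_right
  rw [sq, sq]
  exact card_divisors_mul_le _ _

/-- ROW (M2). `∑_{v ∈ box Y} cont(v) τ(nm v)^K ≤ C Y² (1 + log Y)^k` -/
theorem moment_bx (hb : 1 ≤ b) (hc : 2 ≤ c) (hD : b ^ 2 - 4 * c ≠ 0) (K : ℕ) :
    ∃ (C : ℝ) (k : ℕ), 0 < C ∧ ∀ Y : ℕ, 1 ≤ Y →
      ∑ v ∈ bx b c Y, (cont v : ℝ) * (ta (nm v) : ℝ) ^ K ≤ C * Y ^ 2 * (1 + Real.log Y) ^ k := by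
  classical
  obtain ⟨C, k, hC, hprim⟩ := moment_pbx hb hc hD K
  refine ⟨C, k + 2 ^ (2 * K), hC, ?_⟩
  intro Y hY
  have hYR : (1 : ℝ) ≤ Y := by exact_mod_cast hY
  have hlogY : 0 ≤ Real.log Y := Real.log_nonneg hYR
  have hmaps : ∀ v ∈ bx b c Y, cont v ∈ Icc 1 Y := by
    intro v hv
    rw [mem_bx] at hv
    obtain ⟨v0, h1, h2, h3, h4, h5⟩ := exists_prim' hv.1
    rw [mem_Icc]
    refine ⟨cont_pos hv.1, ?_⟩
    have h6 := hv.2
    rw [h3] at h6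
    have h7 := h1.1
    have : (cont v : ℤ) ≤ cont v * v0.re := by nlinarith [(Nat.cast_nonneg (cont v) : (0:ℤ) ≤ cont v)]
    have h8 : (cont v : ℤ) ≤ Y := this.trans h6
    exact_mod_cast h8
  rw [← sum_fiberwise_of_maps_to hmaps]
  have h1 : ∀ g ∈ Icc 1 Y, ∑ v ∈ (bx b c Y).filter (fun v => cont v = g),
      (cont v : ℝ) * (ta (nm v) : ℝ) ^ K ≤
      C * Y ^ 2 * (1 + Real.log Y) ^ k * ((g.divisors.card : ℝ) ^ (2 * K) / g) := by
    intro g hg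
    rw [mem_Icc] at hg
    have hgR : (0 : ℝ) < g := by exact_mod_cast hg.1
    have hex : ∀ v ∈ (bx b c Y).filter (fun v => cont v = g), ∃ v0 : O b c,
        v0 ∈ pbx b c (Y / g) ∧ v.re = g * v0.re ∧ v.im = g * v0.im ∧
          nm v = (g : ℤ) ^ 2 * nm v0 := by
      intro v hv
      rw [mem_filter, mem_bx] at hv
      obtain ⟨⟨k1, k2⟩, k3⟩ := hv
      obtain ⟨v0, h1, h2, h3, h4, h5⟩ := exists_prim' k1
      rw [k3] at h3 h4 h5
      refine ⟨v0, ?_, h3, h4, h5⟩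
      rw [mem_pbx]
      refine ⟨h1, ?_, h2⟩
      rw [h3] at k2
      have hg0 : 0 < g := hg.1
      obtain ⟨x, hx⟩ : ∃ x : ℕ, (x : ℤ) = v0.re := ⟨v0.re.toNat, by have := h1.1; omega⟩
      rw [← hx] at k2 ⊢
      have : g * x ≤ Y := by exact_mod_cast k2
      have h9 : x ≤ Y / g := by
        rw [Nat.le_div_iff_mul_le hg0, mul_comm]; exact this
      exact_mod_cast h9
    choose! u hu1 hu2 hu3 hu4 using hex
    have hinj : Set.InjOn u ((bx b c Y).filter (fun v => cont v = g)) := by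
      intro v hv v' hv' he
      ext
      · rw [hu2 v hv, hu2 v' hv', he]
      · rw [hu3 v hv, hu3 v' hv', he]
    have h2 : ∑ v ∈ (bx b c Y).filter (fun v => cont v = g), (cont v : ℝ) * (ta (nm v) : ℝ) ^ K ≤
        ∑ v ∈ (bx b c Y).filter (fun v => cont v = g),
          (g : ℝ) * ((g.divisors.card : ℝ) ^ (2 * K) * (ta (nm (u v)) : ℝ) ^ K) := by
      apply sum_le_sum
      intro v hv
      have hv' := (mem_filter.mp hv).2
      rw [hv']
      have h3 := ta_cont_mul g (hu4 v hv)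
      have h4 : (ta (nm v) : ℝ) ≤ (g.divisors.card : ℝ) ^ 2 * ta (nm (u v)) := by exact_mod_cast h3
      have h5 : (ta (nm v) : ℝ) ^ K ≤ (g.divisors.card : ℝ) ^ (2 * K) * (ta (nm (u v)) : ℝ) ^ K := by
        calc (ta (nm v) : ℝ) ^ K ≤ ((g.divisors.card : ℝ) ^ 2 * ta (nm (u v))) ^ K := by gcongr
          _ = _ := by rw [mul_pow, ← pow_mul]
      gcongr
    have h3 : ∑ v ∈ (bx b c Y).filter (fun v => cont v = g),
          (g : ℝ) * ((g.divisors.card : ℝ) ^ (2 * K) * (ta (nm (u v)) : ℝ) ^ K) ≤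
        (g : ℝ) * (g.divisors.card : ℝ) ^ (2 * K) *
          ∑ v0 ∈ pbx b c (Y / g), (ta (nm v0) : ℝ) ^ K := by
      have e1 : ∑ v ∈ (bx b c Y).filter (fun v => cont v = g),
          (g : ℝ) * ((g.divisors.card : ℝ) ^ (2 * K) * (ta (nm (u v)) : ℝ) ^ K) =
          (g : ℝ) * (g.divisors.card : ℝ) ^ (2 * K) *
            ∑ v0 ∈ ((bx b c Y).filter (fun v => cont v = g)).image u, (ta (nm v0) : ℝ) ^ K := by
        rw [sum_image hinj, mul_sum]
        apply sum_congr rfl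
        intro v _; ring
      rw [e1]
      gcongr
      intro v0 hv0
      rw [mem_image] at hv0
      obtain ⟨v, hv, rfl⟩ := hv0
      exact hu1 v hv
    have hYg : 1 ≤ Y / g := (Nat.one_le_div_iff hg.1).mpr hg.2
    have hYg' : ((Y / g : ℕ) : ℝ) ≤ (Y : ℝ) / g := Nat.cast_div_le
    have hYg0 : (1 : ℝ) ≤ ((Y / g : ℕ) : ℝ) := by exact_mod_cast hYg
    have h4 := hprim (Y / g) hYg
    have h5 : C * ((Y / g : ℕ) : ℝ) ^ 2 * (1 + Real.log ((Y / g : ℕ) : ℝ)) ^ k ≤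
        C * ((Y : ℝ) / g) ^ 2 * (1 + Real.log Y) ^ k := by
      have hl : Real.log ((Y / g : ℕ) : ℝ) ≤ Real.log Y := by
        apply Real.log_le_log (by linarith)
        exact_mod_cast Nat.div_le_self Y g
      have hl0 : 0 ≤ Real.log ((Y / g : ℕ) : ℝ) := Real.log_nonneg hYg0
      gcongr
    calc _ ≤ _ := h2
      _ ≤ _ := h3
      _ ≤ (g : ℝ) * (g.divisors.card : ℝ) ^ (2 * K) *
          (C * ((Y : ℝ) / g) ^ 2 * (1 + Real.log Y) ^ k) := by
          have := h4.trans h5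
          gcongr
      _ = C * Y ^ 2 * (1 + Real.log Y) ^ k * ((g.divisors.card : ℝ) ^ (2 * K) / g) := by
          field_simp
  calc _ ≤ ∑ g ∈ Icc 1 Y, C * Y ^ 2 * (1 + Real.log Y) ^ k * ((g.divisors.card : ℝ) ^ (2 * K) / g) :=
        sum_le_sum h1
    _ = C * Y ^ 2 * (1 + Real.log Y) ^ k * ∑ g ∈ Icc 1 Y, ((g.divisors.card : ℝ) ^ (2 * K) / g) := by
        rw [← mul_sum]
    _ ≤ C * Y ^ 2 * (1 + Real.log Y) ^ k * (1 + Real.log Y) ^ (2 ^ (2 * K)) := by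
        gcongr
        exact Qap.sum_tau_pow_div_le (2 * K) Y hY
    _ = _ := by rw [pow_add]; ring

end Pool.Agent.Lib.MP_648c71_nt.Hp
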