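import Mathlib

/-!
Coprime pairs in a square.
-/

namespace Pool.Agent.Lib.MP_648c71_nt.Hp

theorem sum_inv_sq_le (Y : ℕ) (hY : 2 ≤ Y) :
    ∑ k ∈ Finset.Icc 2 Y, (1 : ℝ) / (k : ℝ) ^ 2 ≤ 3 / 4 - 1 / Y := by
  induction Y, hY using Nat.le_induction with
  | base => norm_num
  | succ Y hY ih =>
    rw [Finset.sum_Icc_succ_top (by omega)]
    have hYr : (0 : ℝ) < Y := by
      have : 0 < Y := by omega
      exact_mod_cast this
    have h1 : (1 : ℝ) / ((Y + 1 : ℕ) : ℝ) ^ 2 ≤ 1 / Y - 1 / ((Y + 1 : ℕ) : ℝ) := by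
      push_cast
      rw [div_sub_div _ _ (by positivity) (by positivity), div_le_div_iff₀ (by positivity)
        (by positivity)]
      nlinarith
    linarith

/-- coprime pairs -/
def cop (Y : ℕ) : Finset (ℕ × ℕ) :=
  ((Finset.Icc 1 Y) ×ˢ (Finset.Icc 1 Y)).filter (fun p => Nat.Coprime p.1 p.2)

theorem card_cop (Y : ℕ) (hY : 2 ≤ Y) : (Y : ℝ) ^ 2 / 4 ≤ (cop Y).card := by
  classical
  have hYr : (0 : ℝ) < Y := by
    have : 0 < Y := by omega
    exact_mod_cast this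
  have hsplit : ((Finset.Icc 1 Y) ×ˢ (Finset.Icc 1 Y)) ⊆ cop Y ∪
      (Finset.Icc 2 Y).biUnion (fun k => ((Finset.Icc 1 Y).filter (fun x => k ∣ x)) ×ˢ
        ((Finset.Icc 1 Y).filter (fun x => k ∣ x))) := by
    rintro ⟨x, y⟩ hxy
    rw [Finset.mem_product] at hxy
    have hx := Finset.mem_Icc.mp hxy.1
    have hy := Finset.mem_Icc.mp hxy.2
    simp only at hx hy
    rw [Finset.mem_union]
    by_cases h : Nat.Coprime x y
    · left
      unfold cop
      simp only [Finset.mem_filter, Finset.mem_product, Finset.mem_Icc]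
      exact ⟨⟨hx, hy⟩, h⟩
    · right
      rw [Finset.mem_biUnion]
      have hg0 : 0 < Nat.gcd x y := Nat.gcd_pos_of_pos_left _ (by omega)
      have hgx : Nat.gcd x y ≤ x := Nat.gcd_le_left _ (by omega)
      refine ⟨Nat.gcd x y, ?_, ?_⟩
      · rw [Finset.mem_Icc]
        refine ⟨?_, by omega⟩
        have : Nat.gcd x y ≠ 1 := h
        omega
      · simp only [Finset.mem_product, Finset.mem_filter, Finset.mem_Icc]
        exact ⟨⟨hx, Nat.gcd_dvd_left x y⟩, ⟨hy, Nat.gcd_dvd_right x y⟩⟩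
  have hmul : ∀ k ∈ Finset.Icc 2 Y, ((((Finset.Icc 1 Y).filter (fun x => k ∣ x)) ×ˢ
        ((Finset.Icc 1 Y).filter (fun x => k ∣ x))).card : ℝ) ≤ (Y : ℝ) ^ 2 * (1 / (k : ℝ) ^ 2) := by
    intro k hk
    have hk2 := (Finset.mem_Icc.mp hk).1
    have hkr : (0 : ℝ) < k := by
      have : 0 < k := by omega
      exact_mod_cast this
    rw [Finset.card_product]
    have h1 : ((Finset.Icc 1 Y).filter (fun x => k ∣ x)).card = Y / k := by
      have := Nat.Ioc_filter_dvd_card_eq_div Y k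
      rw [← this]
      congr 1
    rw [h1]
    push_cast
    have h2 : ((Y / k : ℕ) : ℝ) ≤ Y / k := Nat.cast_div_le
    calc ((Y / k : ℕ) : ℝ) * ((Y / k : ℕ) : ℝ) ≤ (Y / k) * (Y / k) := by gcongr
      _ = _ := by field_simp
  have h1 : ((Y : ℝ)) ^ 2 ≤ (cop Y).card + ∑ k ∈ Finset.Icc 2 Y, (Y : ℝ) ^ 2 * (1 / (k : ℝ) ^ 2) := by
    have h2 := Finset.card_le_card hsplit
    rw [Finset.card_product, Nat.card_Icc, Nat.add_sub_cancel] at h2
    have h3 := h2.trans ((Finset.card_union_le _ _).trans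
      (Nat.add_le_add_left Finset.card_biUnion_le _))
    have h4 : ((Y * Y : ℕ) : ℝ) ≤ ((cop Y).card + ∑ k ∈ Finset.Icc 2 Y,
      (((Finset.Icc 1 Y).filter (fun x => k ∣ x)) ×ˢ
        ((Finset.Icc 1 Y).filter (fun x => k ∣ x))).card : ℕ) := by exact_mod_cast h3
    push_cast at h4
    calc (Y : ℝ) ^ 2 = Y * Y := by ring
      _ ≤ _ := h4
      _ ≤ _ := by
        gcongr with k hk
        exact hmul k hk
  rw [← Finset.mul_sum] at h1
  have h5 := sum_inv_sq_le Y hY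
  have h6 : (Y : ℝ) ^ 2 * ∑ k ∈ Finset.Icc 2 Y, (1 : ℝ) / (k : ℝ) ^ 2 ≤
      (Y : ℝ) ^ 2 * (3 / 4) := by
    gcongr
    have : 0 < (1 : ℝ) / Y := by positivity
    linarith
  linarith

end Pool.Agent.Lib.MP_648c71_nt.Hp
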