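import Pool.Agent.Lib.MP_648c71_nt.Hp.Moments
import Pool.Agent.Lib.MP_648c71_nt.Hp.Cop

/-!
The value `+1`: unimodular triangles.
-/

namespace Pool.Agent.Lib.MP_648c71_nt.Hp

open QuadraticAlgebra Finset

variable {b c : ℤ}

/-- a completely multiplicative function with values `±1` on nonzero integers -/
structure IsCM (g : ℤ → ℤ) : Prop where
  mul : ∀ m n, g (m * n) = g m * g n
  sgn : ∀ m, m ≠ 0 → g m = 1 ∨ g m = -1

theorem isCM_lam : IsCM lam := ⟨lam_mul, fun _ h => lam_eq_one_or h⟩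

/-- `n ≤ X` with `g(f(n)) = s` -/
def sgnSet (g : ℤ → ℤ) (b c : ℤ) (s : ℤ) (X : ℕ) : Finset ℕ :=
  (Icc 1 X).filter (fun n : ℕ => g (ff b c n) = s)

theorem IsCM.edge {g : ℤ → ℤ} (hg : IsCM g) (hb : 1 ≤ b) (hc : 2 ≤ c) {p q : O b c} (hp : InC p)
    (hq : InC q) (h : dt p q = 1) :
    (g (nm p) = g (nm q) → g (ff b c (sc p q)) = 1) ∧
    (g (nm p) ≠ g (nm q) → g (ff b c (sc p q)) = -1) := by
  rw [← nm_mul_nm_of_dt h, hg.mul]
  rcases hg.sgn _ (hp.nm_pos hb hc).ne' with h1 | h1 <;>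
    rcases hg.sgn _ (hq.nm_pos hb hc).ne' with h2 | h2 <;> rw [h1, h2] <;> norm_num

/-- the edges of index `≤ X` with index in a set `E` are at most `∑_{n ∈ E} τ(f(n))` -/
theorem card_edges_le (hb : 1 ≤ b) (hc : 2 ≤ c) (E : Finset ℕ) (S : Finset (O b c × O b c))
    (hS : ∀ e ∈ S, InC e.1 ∧ InC e.2 ∧ dt e.1 e.2 = 1 ∧ ∃ n ∈ E, sc e.1 e.2 = (n : ℤ)) :
    S.card ≤ ∑ n ∈ E, ta (ff b c n) := by
  classical
  have hmaps : ∀ e ∈ S, (sc e.1 e.2).toNat ∈ E := by
    intro e he
    obtain ⟨-, -, -, n, hn, h⟩ := hS e he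
    rw [h]; simpa using hn
  rw [card_eq_sum_card_fiberwise hmaps]
  apply sum_le_sum
  intro n hn
  apply edges_card hb hc
  intro e he
  rw [mem_filter] at he
  obtain ⟨h1, h2, h3, m, hm, h⟩ := hS e he.1
  refine ⟨h1, h2, h3, ?_⟩
  have := he.2
  rw [h] at this ⊢
  simp at this
  exact_mod_cast this

/-- companion of a primitive vector -/
theorem exists_companion {a : O b c} (ha : InC a) (hlt : a.im < a.re)
    (hcop : IsCoprime a.re a.im) :
    ∃ w : O b c, InC w ∧ dt a w = 1 ∧ w.re ≤ 2 * a.re := by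
  obtain ⟨s, t, hst⟩ := hcop
  -- a.re * s' - a.im * t' = 1 with t' = -t
  have hre := ha.1
  set k : ℤ := (-t - a.re) / a.re with hk
  -- w = (−t − k a.re, s − k a.im)
  have h1 := Int.emod_add_mul_ediv (-t - a.re) a.re
  have h2 := Int.emod_nonneg (-t - a.re) hre.ne'
  have h3 := Int.emod_lt_of_pos (-t - a.re) hre
  set u : ℤ := -t - k * a.re with hu
  have hu1 : a.re ≤ u := by rw [hu, hk]; nlinarith
  have hu2 : u < 2 * a.re := by rw [hu, hk]; nlinarith
  have hdt : a.re * (s - k * a.im) - a.im * u = 1 := by rw [hu]; linear_combination hst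
  have ha0 := ha.2.1
  have hv0 : 0 < s - k * a.im := by
    by_contra hle
    push Not at hle
    nlinarith [mul_nonneg ha0 (by linarith : (0:ℤ) ≤ u)]
  have hv1 : s - k * a.im ≤ u := by
    by_contra hgt
    push Not at hgt
    have h5 : a.re * (u + 1) ≤ a.re * (s - k * a.im) := by
      apply mul_le_mul_of_nonneg_left _ hre.le; omega
    have h6 : a.im * u ≤ (a.re - 1) * u := by
      apply mul_le_mul_of_nonneg_right _ (by linarith); omega
    nlinarith
  refine ⟨⟨u, s - k * a.im⟩, ⟨by simp only; linarith, by simp only; linarith, hv1⟩, ?_, ?_⟩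
  · unfold dt; simp only; exact hdt
  · simp only; linarith

/-- many primitive vectors with `im < re` -/
theorem card_pbx_lower (Y : ℕ) (hY : 10 ≤ Y) :
    (Y : ℝ) ^ 2 / 16 ≤ (((pbx b c Y).filter (fun a => a.im < a.re)).card : ℝ) := by
  classical
  have h1 := card_cop Y (by omega)
  set B := (cop Y).filter (fun p => p.2 < p.1) with hB
  have hsub : cop Y ⊆ (B ∪ B.image Prod.swap) ∪ {(1, 1)} := by
    intro p hp
    have hp' := hp
    unfold cop at hp'
    rw [mem_filter, mem_product, mem_Icc, mem_Icc] at hp'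
    rw [mem_union, mem_union, mem_image]
    rcases lt_trichotomy p.2 p.1 with h | h | h
    · left; left
      rw [hB, mem_filter]; exact ⟨hp, h⟩
    · right
      have : Nat.Coprime p.1 p.1 := by have := hp'.2; rwa [h] at this
      rw [Nat.coprime_self] at this
      rw [mem_singleton]
      exact Prod.ext this (h.trans this)
    · left; right
      refine ⟨p.swap, ?_, Prod.swap_swap p⟩
      rw [hB, mem_filter]
      refine ⟨?_, h⟩
      unfold cop
      rw [mem_filter, mem_product, mem_Icc, mem_Icc]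
      exact ⟨⟨hp'.1.2, hp'.1.1⟩, hp'.2.symm⟩
  have h2 : (cop Y).card ≤ 2 * B.card + 1 := by
    calc (cop Y).card ≤ _ := card_le_card hsub
      _ ≤ (B ∪ B.image Prod.swap).card + 1 := by
          refine (card_union_le _ _).trans ?_
          simp
      _ ≤ (B.card + (B.image Prod.swap).card) + 1 := by
          gcongr; exact card_union_le _ _
      _ ≤ (B.card + B.card) + 1 := by
          have : (B.image Prod.swap).card ≤ B.card := card_image_le
          omega
      _ = 2 * B.card + 1 := by ring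
  have h3 : B.card ≤ ((pbx b c Y).filter (fun a => a.im < a.re)).card := by
    apply Finset.card_le_card_of_injOn (fun p => (⟨(p.1 : ℤ), (p.2 : ℤ)⟩ : O b c))
    · intro p hp
      rw [mem_coe, hB, mem_filter] at hp
      obtain ⟨hp, hlt⟩ := hp
      unfold cop at hp
      rw [mem_filter, mem_product, mem_Icc, mem_Icc] at hp
      rw [mem_coe, mem_filter, mem_pbx]
      refine ⟨⟨⟨?_, ?_, ?_⟩, ?_, ?_⟩, ?_⟩
      · simp only; have := hp.1.1.1; omega
      · simp only; omega
      · simp only; omega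
      · simp only; exact_mod_cast hp.1.1.2
      · simp only; exact Nat.isCoprime_iff_coprime.mpr hp.2
      · simp only; exact_mod_cast hlt
    · intro p _ q _ h
      have r1 := congrArg QuadraticAlgebra.re h
      have r2 := congrArg QuadraticAlgebra.im h
      simp only at r1 r2
      exact Prod.ext (by exact_mod_cast r1) (by exact_mod_cast r2)
  have h4 : ((cop Y).card : ℝ) ≤ 2 * ((pbx b c Y).filter (fun a => a.im < a.re)).card + 1 := by
    exact_mod_cast h2.trans (by omega)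
  have h5 : (10 : ℝ) ≤ Y := by exact_mod_cast hY
  nlinarith

/-- ROW (a). the value `+1` -/
theorem plus_all {g : ℤ → ℤ} (hg : IsCM g) (hb : 1 ≤ b) (hc : 2 ≤ c) (hD : b ^ 2 - 4 * c ≠ 0) :
    ∃ (C : ℝ) (k : ℕ), 0 < C ∧ ∀ᶠ X : ℕ in Filter.atTop,
      (X : ℝ) ≤ C * (1 + Real.log X) ^ k * (sgnSet g b c 1 X).card := by
  classical
  obtain ⟨C, k, hC, hmom⟩ := moment_ff hb hc hD 2
  obtain ⟨C2, hC2⟩ : ∃ C2 : ℕ, (C2 : ℤ) = C1 b c := ⟨(C1 b c).toNat, by unfold C1; omega⟩
  have hC21 : 1 ≤ C2 := by unfold C1 at hC2; omega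
  refine ⟨(24 * C2) ^ 2 * 1024 * C, k, by positivity, ?_⟩
  filter_upwards [Filter.eventually_ge_atTop (6 * C2 * 100)] with X hX
  -- choose `Y`
  set Y : ℕ := Nat.sqrt (X / (6 * C2)) with hY
  have h6 : 0 < 6 * C2 := by positivity
  have hq : 100 ≤ X / (6 * C2) := by
    rw [Nat.le_div_iff_mul_le h6]; linarith
  have hY1 : 10 ≤ Y := by
    rw [hY, Nat.le_sqrt]; omega
  have hY2 : Y * Y ≤ X / (6 * C2) := Nat.sqrt_le _
  have hY3 : X / (6 * C2) < (Y + 1) * (Y + 1) := Nat.lt_succ_sqrt _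
  have hY4 : 6 * C2 * (Y * Y) ≤ X := by
    rw [Nat.le_div_iff_mul_le h6] at hY2
    linarith
  have hY5 : X ≤ 24 * C2 * (Y * Y) := by
    rw [Nat.div_lt_iff_lt_mul h6] at hY3
    have : (Y + 1) * (Y + 1) ≤ 4 * (Y * Y) := by nlinarith
    nlinarith
  have hX1 : 1 ≤ X := by omega
  set A := (pbx b c Y).filter (fun a => a.im < a.re) with hA
  have hAc := card_pbx_lower (b := b) (c := c) Y hY1
  rw [← hA] at hAc
  have hex : ∀ a ∈ A, ∃ w : O b c, InC w ∧ dt a w = 1 ∧ w.re ≤ 2 * a.re := by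
    intro a ha
    rw [hA, mem_filter, mem_pbx] at ha
    exact exists_companion ha.1.1 ha.2 ha.1.2.2
  choose! w hw1 hw2 hw3 using hex
  have hAin : ∀ a ∈ A, InC a ∧ a.re ≤ Y := by
    intro a ha
    rw [hA, mem_filter, mem_pbx] at ha
    exact ⟨ha.1.1, ha.1.2.1⟩
  -- the edge attached to `a`
  let e : O b c → O b c × O b c := fun a =>
    if g (nm a) = g (nm (w a)) then (a, w a) else
      if g (nm a) = g (nm (a + w a)) then (a, a + w a) else (a + w a, w a)
  have hedge : ∀ a ∈ A, InC (e a).1 ∧ InC (e a).2 ∧ dt (e a).1 (e a).2 = 1 ∧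
      g (nm (e a).1) = g (nm (e a).2) ∧ (e a).1.re ≤ 3 * Y ∧ (e a).2.re ≤ 3 * Y ∧
      (e a).1.re * (e a).2.re ≤ 6 * (Y : ℤ) ^ 2 := by
    intro a ha
    obtain ⟨k1, k2⟩ := hAin a ha
    have k3 := hw1 a ha
    have k4 := hw2 a ha
    have k5 := hw3 a ha
    have k6 := k1.add k3
    have k7 : dt a (a + w a) = 1 := by
      rw [← k4]; unfold dt; rw [re_add, im_add]; ring
    have k8 : dt (a + w a) (w a) = 1 := by
      rw [← k4]; unfold dt; rw [re_add, im_add]; ring
    have a0 := k1.1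
    have w0 := k3.1
    have hs : (a + w a).re = a.re + (w a).re := re_add _ _
    have hY0 : (0 : ℤ) < Y := by exact_mod_cast (by omega : 0 < Y)
    simp only [e]
    split_ifs with g1 g2
    · exact ⟨k1, k3, k4, g1, by simp only; linarith, by simp only; linarith,
        by simp only; nlinarith⟩
    · refine ⟨k1, k6, k7, g2, by simp only; linarith, by simp only; rw [hs]; linarith, ?_⟩
      simp only; rw [hs]; nlinarith
    · refine ⟨k6, k3, k8, ?_, by simp only; rw [hs]; linarith, by simp only; linarith, ?_⟩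
      · simp only
        rcases hg.sgn _ (k1.nm_pos hb hc).ne' with h1 | h1 <;>
          rcases hg.sgn _ (k3.nm_pos hb hc).ne' with h2 | h2 <;>
            rcases hg.sgn _ (k6.nm_pos hb hc).ne' with h3 | h3 <;>
              rw [h1] at g1 g2 <;> rw [h2] at g1 ⊢ <;> rw [h3] at g2 ⊢ <;> simp_all
      · simp only; rw [hs]; nlinarith
  have hS : (A.image e).card ≤ ∑ n ∈ sgnSet g b c 1 X, ta (ff b c n) := by
    apply card_edges_le hb hc
    intro x hx
    rw [mem_image] at hx
    obtain ⟨a, ha, rfl⟩ := hx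
    obtain ⟨k1, k2, k3, k4, -, -, k5⟩ := hedge a ha
    refine ⟨k1, k2, k3, (sc (e a).1 (e a).2).toNat, ?_, ?_⟩
    · have hp := sc_pos hb hc k1 k2
      have hle := sc_le hb hc k1 k2
      have hle2 : sc (e a).1 (e a).2 ≤ X := by
        calc sc (e a).1 (e a).2 ≤ C1 b c * ((e a).1.re * (e a).2.re) := hle
          _ ≤ C1 b c * (6 * (Y : ℤ) ^ 2) := by
              apply mul_le_mul_of_nonneg_left k5
              unfold C1; linarith
          _ ≤ X := by
              rw [← hC2]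
              have : ((6 * C2 * (Y * Y) : ℕ) : ℤ) ≤ X := by exact_mod_cast hY4
              push_cast at this
              nlinarith
      unfold sgnSet
      rw [mem_filter, mem_Icc]
      refine ⟨by omega, ?_⟩
      have e1 : (((sc (e a).1 (e a).2).toNat : ℕ) : ℤ) = sc (e a).1 (e a).2 := by omega
      rw [e1]
      exact (hg.edge hb hc k1 k2 k3).1 k4
    · have hp := sc_pos hb hc k1 k2
      omega
  have hfib : A.card ≤ 2 * (A.image e).card := by
    apply Finset.card_le_mul_card_image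
    rintro ⟨p, q⟩ -
    have : A.filter (fun a => e a = (p, q)) ⊆ {p, p - q} := by
      intro a ha
      rw [mem_filter] at ha
      obtain ⟨ha, he⟩ := ha
      rw [mem_insert, mem_singleton]
      simp only [e] at he
      split_ifs at he with g1 g2
      · left; exact (Prod.mk.inj he).1
      · left; exact (Prod.mk.inj he).1
      · right
        rw [← (Prod.mk.inj he).1, ← (Prod.mk.inj he).2]; abel
    exact (card_le_card this).trans card_le_two
  have hcs : ((A.image e).card : ℝ) ^ 2 ≤ (sgnSet g b c 1 X).card * (C * X * (1 + Real.log X) ^ k) := by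
    have h1 : ((A.image e).card : ℝ) ≤ ∑ n ∈ sgnSet g b c 1 X, (ta (ff b c n) : ℝ) := by
      exact_mod_cast hS
    have h2 : (∑ n ∈ sgnSet g b c 1 X, (ta (ff b c n) : ℝ)) ^ 2 ≤
        (sgnSet g b c 1 X).card * ∑ n ∈ sgnSet g b c 1 X, (ta (ff b c n) : ℝ) ^ 2 := by
      exact sq_sum_le_card_mul_sum_sq
    have h3 : ∑ n ∈ sgnSet g b c 1 X, (ta (ff b c n) : ℝ) ^ 2 ≤ C * X * (1 + Real.log X) ^ k := by
      refine le_trans ?_ (hmom X hX1)
      apply sum_le_sum_of_subset_of_nonneg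
      · exact filter_subset _ _
      · intro n _ _; positivity
    calc ((A.image e).card : ℝ) ^ 2 ≤ (∑ n ∈ sgnSet g b c 1 X, (ta (ff b c n) : ℝ)) ^ 2 := by gcongr
      _ ≤ _ := h2
      _ ≤ _ := by gcongr
  -- conclusion
  have hlog : 0 ≤ Real.log X := Real.log_nonneg (by exact_mod_cast hX1)
  have hXR : (0 : ℝ) < X := by exact_mod_cast hX1
  set s : ℝ := ((sgnSet g b c 1 X).card : ℝ) with hs
  set L : ℝ := (1 + Real.log X) ^ k with hL
  have hfib' : (A.card : ℝ) ≤ 2 * ((A.image e).card : ℝ) := by exact_mod_cast hfib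
  have h1 : ((Y : ℝ) ^ 2 / 16) ^ 2 ≤ 4 * (s * (C * X * L)) := by
    calc ((Y : ℝ) ^ 2 / 16) ^ 2 ≤ (A.card : ℝ) ^ 2 := by gcongr
      _ ≤ (2 * ((A.image e).card : ℝ)) ^ 2 := by gcongr
      _ = 4 * ((A.image e).card : ℝ) ^ 2 := by ring
      _ ≤ _ := by gcongr
  have h2 : (X : ℝ) ≤ 24 * C2 * (Y : ℝ) ^ 2 := by
    have : (X : ℝ) ≤ ((24 * C2 * (Y * Y) : ℕ) : ℝ) := by exact_mod_cast hY5
    push_cast at this
    nlinarith
  have h3 : (X : ℝ) ^ 2 ≤ (24 * C2) ^ 2 * 1024 * C * L * s * X := by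
    calc (X : ℝ) ^ 2 ≤ (24 * C2 * (Y : ℝ) ^ 2) ^ 2 := by gcongr
      _ = (24 * C2) ^ 2 * 256 * ((Y : ℝ) ^ 2 / 16) ^ 2 := by ring
      _ ≤ (24 * C2) ^ 2 * 256 * (4 * (s * (C * X * L))) := by gcongr
      _ = _ := by ring
  have h4 : (X : ℝ) * X ≤ ((24 * C2) ^ 2 * 1024 * C * L * s) * X := by rw [← sq]; exact h3
  exact le_of_mul_le_mul_right h4 hXR

end Pool.Agent.Lib.MP_648c71_nt.Hp
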