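import Pool.Agent.Lib.MP_648c71_nt.Hp.Roots

/-!
Boxes of lattice vectors, primitive vectors with `d ∣ nm v`, divisors in the cone.
-/

namespace Pool.Agent.Lib.MP_648c71_nt.Hp

open QuadraticAlgebra Finset

variable {b c : ℤ}

/-- the vectors of the cone with `re ≤ Y` -/
def bx (b c : ℤ) (Y : ℕ) : Finset (O b c) :=
  ((((Icc 1 Y) ×ˢ (range (Y + 1))).image
    (fun p : ℕ × ℕ => (⟨(p.1 : ℤ), (p.2 : ℤ)⟩ : O b c))).filter InC)

theorem mem_bx {Y : ℕ} {v : O b c} : v ∈ bx b c Y ↔ InC v ∧ v.re ≤ Y := by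
  classical
  unfold bx
  rw [mem_filter, mem_image]
  constructor
  · rintro ⟨⟨p, hp, rfl⟩, h⟩
    rw [mem_product, mem_Icc, mem_range] at hp
    refine ⟨h, ?_⟩
    have := hp.1.2
    simp only
    exact_mod_cast this
  · rintro ⟨h, hY⟩
    refine ⟨⟨(v.re.toNat, v.im.toNat), ?_, ?_⟩, h⟩
    · obtain ⟨h1, h2, h3⟩ := h
      rw [mem_product, mem_Icc, mem_range]
      simp only
      omega
    · obtain ⟨h1, h2, h3⟩ := h
      ext
      · simp only; omega
      · simp only; omega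

/-- primitive vectors of the cone with `re ≤ Y` -/
def pbx (b c : ℤ) (Y : ℕ) : Finset (O b c) :=
  (bx b c Y).filter (fun v => Int.gcd v.re v.im = 1)

theorem mem_pbx {Y : ℕ} {v : O b c} : v ∈ pbx b c Y ↔ InC v ∧ v.re ≤ Y ∧ IsCoprime v.re v.im := by
  unfold pbx
  rw [mem_filter, mem_bx, Int.isCoprime_iff_gcd_eq_one]
  tauto

theorem card_bx_le (Y : ℕ) : (bx b c Y).card ≤ Y * (Y + 1) := by
  classical
  unfold bx
  refine (card_filter_le _ _).trans (card_image_le.trans ?_)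
  rw [card_product, Nat.card_Icc, card_range]
  simp

/-- the slope -/
noncomputable def sl (v : O b c) : ℝ := (v.im : ℝ) / v.re

theorem sl_sub {v w : O b c} (hv : InC v) (hw : InC w) :
    sl w - sl v = (dt v w : ℝ) / (v.re * w.re) := by
  have h1 : (v.re : ℝ) ≠ 0 := by exact_mod_cast hv.1.ne'
  have h2 : (w.re : ℝ) ≠ 0 := by exact_mod_cast hw.1.ne'
  unfold sl dt
  push_cast
  field_simp

/-- if `d ∣ nm v`, `v` primitive, then `v.im` is a unit mod `d` -/
theorem coprime_im {d : ℕ} {v : O b c} (hcop : IsCoprime v.re v.im) (hdv : (d : ℤ) ∣ nm v) :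
    IsCoprime v.im (d : ℤ) := by
  have h1 : IsCoprime v.im (nm v) := by
    have h2 : IsCoprime v.im (v.re ^ 2) := hcop.symm.pow_right
    have e : nm v = v.re ^ 2 + v.im * (b * v.re + c * v.im) := by unfold nm; ring
    rw [e]
    exact (IsCoprime.add_mul_left_right_iff (x := v.im) (y := v.re ^ 2)
      (z := b * v.re + c * v.im)).mpr h2
  exact h1.of_isCoprime_of_dvd_right hdv

/-- the root class of a primitive vector -/
theorem exists_class {d : ℕ} (hd : 0 < d) {v : O b c} (hcop : IsCoprime v.re v.im)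
    (hdv : (d : ℤ) ∣ nm v) : ∃ r ∈ rts b c d 1, (d : ℤ) ∣ v.re - r * v.im := by
  obtain ⟨s, t, hst⟩ := coprime_im hcop hdv
  -- s * im + t * d = 1
  have hdZ : (0 : ℤ) < d := by exact_mod_cast hd
  set r := ((v.re * s) % (d : ℤ)).toNat with hr
  have hr0 : 0 ≤ (v.re * s) % (d : ℤ) := Int.emod_nonneg _ hdZ.ne'
  have hr1 : (v.re * s) % (d : ℤ) < d := Int.emod_lt_of_pos _ hdZ
  have hrc : (r : ℤ) = (v.re * s) % (d : ℤ) := by rw [hr]; omega
  have hmod : (d : ℤ) ∣ (r : ℤ) - v.re * s := by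
    rw [hrc]
    have := Int.emod_add_mul_ediv (v.re * s) d
    refine ⟨-(v.re * s / d), ?_⟩
    linarith
  have hcl : (d : ℤ) ∣ v.re - r * v.im := by
    obtain ⟨k, hk⟩ := hmod
    refine ⟨v.re * t - k * v.im, ?_⟩
    have : (r : ℤ) = v.re * s + d * k := by linarith
    rw [this]
    linear_combination (-v.re) * hst
  refine ⟨r, ?_, hcl⟩
  unfold rts
  rw [mem_filter, mem_range]
  refine ⟨by omega, ?_⟩
  have h2 : (d : ℤ) ∣ v.im ^ 2 * ((r : ℤ) ^ 2 + b * r * 1 + c * 1 ^ 2) := by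
    have e : v.im ^ 2 * ((r : ℤ) ^ 2 + b * r * 1 + c * 1 ^ 2) =
        nm v - (v.re - r * v.im) * (v.re + r * v.im + b * v.im) := by
      unfold nm; ring
    rw [e]
    exact dvd_sub hdv (hcl.mul_right _)
  have h3 : IsCoprime (d : ℤ) (v.im ^ 2) := (coprime_im hcop hdv).symm.pow_right
  exact h3.dvd_of_dvd_mul_left h2

theorem dvd_dt_of_class {d r : ℤ} {v w : O b c} (hv : d ∣ v.re - r * v.im)
    (hw : d ∣ w.re - r * w.im) : d ∣ dt v w := by
  have e : dt v w = (v.re - r * v.im) * w.im - (w.re - r * w.im) * v.im := by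
    unfold dt; ring
  rw [e]
  exact dvd_sub (hv.mul_right _) (hw.mul_right _)

/-- primitive vectors of one class modulo `d` in the box: at most `Y²/d + 1` -/
theorem card_class_le {d Y : ℕ} (hd : 0 < d) (r : ℤ) :
    (((pbx b c Y).filter (fun v => (d : ℤ) ∣ v.re - r * v.im)).card : ℝ) ≤ (Y : ℝ) ^ 2 / d + 1 := by
  classical
  rcases Nat.eq_zero_or_pos Y with hY | hY
  · have : (pbx b c Y) = ∅ := by
      apply Finset.eq_empty_of_forall_notMem
      intro v hv
      rw [mem_pbx] at hv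
      have h1 := hv.1.1
      have h2 := hv.2.1
      rw [hY] at h2
      simp at h2
      omega
    rw [this]
    simp
    positivity
  have hdR : (0 : ℝ) < d := by exact_mod_cast hd
  have hYR : (0 : ℝ) < Y := by exact_mod_cast hY
  set N : ℕ := ⌊(Y : ℝ) ^ 2 / d⌋₊ with hN
  have hcard : ((pbx b c Y).filter (fun v => (d : ℤ) ∣ v.re - r * v.im)).card ≤ N + 1 := by
    rw [← card_range (N + 1)]
    apply Finset.card_le_card_of_injOn (fun v => ⌊sl v * ((Y : ℝ) ^ 2 / d)⌋₊)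
    · intro v hv
      rw [mem_coe, mem_filter, mem_pbx] at hv
      obtain ⟨⟨h1, h2, h3⟩, h4⟩ := hv
      rw [mem_coe, mem_range, Nat.lt_succ_iff]
      apply Nat.floor_le_floor
      have hsl : sl v ≤ 1 := by
        unfold sl
        rw [div_le_one (by exact_mod_cast h1.1)]
        exact_mod_cast h1.2.2
      have : 0 ≤ (Y : ℝ) ^ 2 / d := by positivity
      nlinarith
    · intro v hv w hw hvw
      rw [mem_coe, mem_filter, mem_pbx] at hv hw
      obtain ⟨⟨h1, h2, h3⟩, h4⟩ := hv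
      obtain ⟨⟨g1, g2, g3⟩, g4⟩ := hw
      by_contra hne
      have hdt : dt v w ≠ 0 := fun h0 => hne (eq_of_dt_eq_zero h1 g1 h3 g3 h0)
      have hdvd : (d : ℤ) ∣ dt v w := dvd_dt_of_class h4 g4
      have habs : (d : ℝ) ≤ |(dt v w : ℝ)| := by
        have h5 : (d : ℤ) ≤ |dt v w| :=
          Int.le_of_dvd (abs_pos.mpr hdt) ((dvd_abs _ _).mpr hdvd)
        have h6 : ((d : ℤ) : ℝ) ≤ ((|dt v w| : ℤ) : ℝ) := by exact_mod_cast h5
        rw [Int.cast_abs] at h6
        exact_mod_cast h6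
      have hvr : (0 : ℝ) < v.re := by exact_mod_cast h1.1
      have hwr : (0 : ℝ) < w.re := by exact_mod_cast g1.1
      have hvY : (v.re : ℝ) ≤ Y := by exact_mod_cast h2
      have hwY : (w.re : ℝ) ≤ Y := by exact_mod_cast g2
      have hsub := sl_sub h1 g1
      have hfar : 1 ≤ |sl w * ((Y : ℝ) ^ 2 / d) - sl v * ((Y : ℝ) ^ 2 / d)| := by
        have e : sl w * ((Y : ℝ) ^ 2 / d) - sl v * ((Y : ℝ) ^ 2 / d) =
            (dt v w : ℝ) * ((Y : ℝ) ^ 2 / (d * (v.re * w.re))) := by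
          rw [← sub_mul, hsub]
          field_simp
        rw [e, abs_mul, abs_of_pos (by positivity : 0 < (Y : ℝ) ^ 2 / (d * (v.re * w.re)))]
        have h7 : (v.re : ℝ) * w.re ≤ (Y : ℝ) ^ 2 := by nlinarith
        calc (1 : ℝ) = d * ((v.re * w.re) / (d * (v.re * w.re))) := by field_simp
          _ ≤ |(dt v w : ℝ)| * ((Y : ℝ) ^ 2 / (d * (v.re * w.re))) := by
              gcongr
      have hfl : ⌊sl v * ((Y : ℝ) ^ 2 / d)⌋₊ = ⌊sl w * ((Y : ℝ) ^ 2 / d)⌋₊ := hvw
      have s1 : 0 ≤ sl v * ((Y : ℝ) ^ 2 / d) := by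
        have : 0 ≤ sl v := by
          unfold sl
          have : (0 : ℝ) ≤ v.im := by exact_mod_cast h1.2.1
          positivity
        positivity
      have s2 : 0 ≤ sl w * ((Y : ℝ) ^ 2 / d) := by
        have : 0 ≤ sl w := by
          unfold sl
          have : (0 : ℝ) ≤ w.im := by exact_mod_cast g1.2.1
          positivity
        positivity
      have a1 := Nat.floor_le s1
      have a2 := Nat.lt_floor_add_one (sl v * ((Y : ℝ) ^ 2 / d))
      have a3 := Nat.floor_le s2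
      have a4 := Nat.lt_floor_add_one (sl w * ((Y : ℝ) ^ 2 / d))
      rw [hfl] at a1 a2
      have : |sl w * ((Y : ℝ) ^ 2 / d) - sl v * ((Y : ℝ) ^ 2 / d)| < 1 := by
        rw [abs_lt]; constructor <;> linarith
      linarith
  have h1 : (N : ℝ) ≤ (Y : ℝ) ^ 2 / d := Nat.floor_le (by positivity)
  have h2 : (((pbx b c Y).filter (fun v => (d : ℤ) ∣ v.re - r * v.im)).card : ℝ) ≤ N + 1 := by
    exact_mod_cast hcard
  linarith

/-- ROW. primitive `v` in the box with `d ∣ nm v` -/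
theorem card_pbx_dvd (hD : b ^ 2 - 4 * c ≠ 0) {d : ℕ} (hd : 0 < d) (Y : ℕ) :
    (((pbx b c Y).filter (fun v => (d : ℤ) ∣ nm v)).card : ℝ) ≤
      (b ^ 2 - 4 * c).natAbs * d.divisors.card * ((Y : ℝ) ^ 2 / d + 1) := by
  classical
  have hsub : (pbx b c Y).filter (fun v => (d : ℤ) ∣ nm v) ⊆
      (rts b c d 1).biUnion (fun r => (pbx b c Y).filter (fun v => (d : ℤ) ∣ v.re - (r : ℤ) * v.im)) := by
    intro v hv
    rw [mem_filter] at hv
    obtain ⟨r, hr, hrv⟩ := exists_class hd (mem_pbx.mp hv.1).2.2 hv.2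
    rw [mem_biUnion]
    exact ⟨r, hr, mem_filter.mpr ⟨hv.1, hrv⟩⟩
  have h1 := (card_le_card hsub).trans card_biUnion_le
  have h2 : (((pbx b c Y).filter (fun v => (d : ℤ) ∣ nm v)).card : ℝ) ≤
      ∑ r ∈ rts b c d 1, ((((pbx b c Y).filter
        (fun v => (d : ℤ) ∣ v.re - (r : ℤ) * v.im)).card : ℕ) : ℝ) := by
    exact_mod_cast h1
  have h3 : ∑ r ∈ rts b c d 1, ((((pbx b c Y).filter
        (fun v => (d : ℤ) ∣ v.re - (r : ℤ) * v.im)).card : ℕ) : ℝ) ≤
      ∑ r ∈ rts b c d 1, ((Y : ℝ) ^ 2 / d + 1) :=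
    sum_le_sum (fun r _ => card_class_le hd r)
  rw [sum_const, nsmul_eq_mul] at h3
  have h4 : ((rts b c d 1).card : ℝ) ≤ (b ^ 2 - 4 * c).natAbs * d.divisors.card := by
    exact_mod_cast card_rts hD hd 1 isCoprime_one_left
  have h5 : 0 ≤ (Y : ℝ) ^ 2 / d + 1 := by positivity
  calc _ ≤ _ := h2
    _ ≤ _ := h3
    _ ≤ _ := by gcongr

/-- ROW. primitive vectors of the cone of given norm -/
theorem card_prim_norm (hb : 1 ≤ b) (hc : 2 ≤ c) (hD : b ^ 2 - 4 * c ≠ 0) {d : ℕ} (hd : 0 < d)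
    (S : Finset (O b c)) (hS : ∀ v ∈ S, InC v ∧ IsCoprime v.re v.im ∧ nm v = d) :
    S.card ≤ (b ^ 2 - 4 * c).natAbs * d.divisors.card := by
  classical
  have hex : ∀ v ∈ S, ∃ r ∈ rts b c d 1, (d : ℤ) ∣ v.re - (r : ℤ) * v.im := fun v hv =>
    exists_class hd (hS v hv).2.1 (by rw [(hS v hv).2.2])
  choose! r hr hrv using hex
  refine le_trans ?_ (card_rts hD hd 1 isCoprime_one_left)
  apply Finset.card_le_card_of_injOn r
  · intro v hv
    exact hr v hv
  · intro v hv w hw hvw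
    obtain ⟨h1, h2, h3⟩ := hS v hv
    obtain ⟨g1, g2, g3⟩ := hS w hw
    have a1 := hrv v hv
    have a2 := hrv w hw
    rw [← hvw] at a2
    have hdvd := dvd_dt_of_class a1 a2
    have h0 : dt v w = 0 := by
      apply Int.eq_zero_of_abs_lt_dvd hdvd
      have := abs_dt_lt hb hc h1 g1 (h3.trans g3.symm)
      rwa [h3] at this
    exact eq_of_dt_eq_zero h1 g1 h2 g2 h0

/-- the content -/
def cont (v : O b c) : ℕ := Int.gcd v.re v.im

theorem cont_pos {v : O b c} (hv : InC v) : 0 < cont v := by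
  unfold cont
  rw [Nat.pos_iff_ne_zero]
  intro h0
  rw [Int.gcd_eq_zero_iff] at h0
  exact hv.1.ne' h0.1

/-- primitive part -/
theorem exists_prim' {v : O b c} (hv : InC v) : ∃ v0 : O b c, InC v0 ∧ IsCoprime v0.re v0.im ∧
    v.re = cont v * v0.re ∧ v.im = cont v * v0.im ∧ nm v = (cont v : ℤ) ^ 2 * nm v0 := by
  have hg := cont_pos hv
  obtain ⟨a', b', hab, h1, h2⟩ := Int.exists_gcd_one (m := v.re) (n := v.im) hg
  have hgZ : (0 : ℤ) < cont v := by exact_mod_cast hg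
  have e1 : v.re = (cont v : ℤ) * a' := by rw [mul_comm]; exact h1
  have e2 : v.im = (cont v : ℤ) * b' := by rw [mul_comm]; exact h2
  obtain ⟨k1, k2, k3⟩ := hv
  refine ⟨⟨a', b'⟩, ⟨?_, ?_, ?_⟩, Int.isCoprime_iff_gcd_eq_one.mpr hab, e1, e2, ?_⟩
  · simp only
    rw [e1] at k1
    exact (mul_pos_iff_of_pos_left hgZ).mp k1
  · simp only
    rw [e2] at k2
    exact nonneg_of_mul_nonneg_right k2 hgZ
  · simp only
    rw [e1, e2] at k3
    exact le_of_mul_le_mul_left k3 hgZ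
  · unfold nm
    simp only
    rw [e1, e2]
    ring

/-- ROW. `#{ρ : nm ρ ∣ n} ≤ |D| τ(n)³` -/
theorem card_dvd_norm (hb : 1 ≤ b) (hc : 2 ≤ c) (hD : b ^ 2 - 4 * c ≠ 0) {n : ℕ} (hn : 0 < n)
    (S : Finset (O b c)) (hS : ∀ v ∈ S, InC v ∧ nm v ∣ n) :
    S.card ≤ (b ^ 2 - 4 * c).natAbs * n.divisors.card ^ 3 := by
  classical
  have hmaps : ∀ v ∈ S, ((nm v).natAbs, cont v) ∈ n.divisors ×ˢ n.divisors := by
    intro v hv
    obtain ⟨h1, h2⟩ := hS v hv
    obtain ⟨v0, -, -, -, -, h3⟩ := exists_prim' h1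
    have h4 : (nm v).natAbs ∣ n := Int.natCast_dvd_natCast.mp (by
      rw [Int.dvd_natCast] at h2
      exact_mod_cast h2)
    rw [mem_product, Nat.mem_divisors, Nat.mem_divisors]
    refine ⟨⟨h4, hn.ne'⟩, ⟨?_, hn.ne'⟩⟩
    refine dvd_trans ?_ h4
    rw [h3, Int.natAbs_mul, Int.natAbs_pow, Int.natAbs_natCast, sq, mul_assoc]
    exact dvd_mul_right _ _
  have hfib := Finset.card_le_mul_card_image_of_maps_to (f := fun v : O b c => ((nm v).natAbs, cont v))
    (s := S) (t := n.divisors ×ˢ n.divisors) hmaps ((b ^ 2 - 4 * c).natAbs * n.divisors.card) ?_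
  · rw [card_product] at hfib
    calc S.card ≤ _ := hfib
      _ = _ := by ring
  · rintro ⟨m, g⟩ -
    set T := S.filter (fun v : O b c => ((nm v).natAbs, cont v) = (m, g)) with hT
    rcases T.eq_empty_or_nonempty with h0 | ⟨w, hw⟩
    · rw [h0]; simp
    have hTm : ∀ v ∈ T, v ∈ S ∧ (nm v).natAbs = m ∧ cont v = g := by
      intro v hv
      rw [hT, mem_filter] at hv
      exact ⟨hv.1, (Prod.mk.inj hv.2).1, (Prod.mk.inj hv.2).2⟩
    obtain ⟨hwS, hwm, hwg⟩ := hTm w hw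
    have hg0 : 0 < g := by rw [← hwg]; exact cont_pos (hS w hwS).1
    obtain ⟨w0, hw0, hw0c, -, -, hw0n⟩ := exists_prim' (hS w hwS).1
    have hw0pos := hw0.nm_pos hb hc
    -- the norm of the primitive part
    set d := (nm w0).natAbs with hd
    have hd0 : 0 < d := by omega
    have hdn : d ∣ n := by
      have h1 := (hS w hwS).2
      rw [hw0n] at h1
      have h2 : nm w0 ∣ (n : ℤ) := (dvd_mul_left _ _).trans h1
      rw [Int.dvd_natCast] at h2
      exact_mod_cast h2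
    have hex : ∀ v ∈ T, ∃ v0 : O b c, InC v0 ∧ IsCoprime v0.re v0.im ∧ v.re = g * v0.re ∧
        v.im = g * v0.im ∧ nm v0 = d := by
      intro v hv
      obtain ⟨hvS, hvm, hvg⟩ := hTm v hv
      obtain ⟨v0, h1, h2, h3, h4, h5⟩ := exists_prim' (hS v hvS).1
      rw [hvg] at h3 h4 h5
      refine ⟨v0, h1, h2, h3, h4, ?_⟩
      have p0 := h1.nm_pos hb hc
      have p1 := (hS v hvS).1.nm_pos hb hc
      have p2 := (hS w hwS).1.nm_pos hb hc
      have e1 : nm v = nm w := by omega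
      rw [h5, hw0n, hwg] at e1
      have : ((g : ℤ) ^ 2) ≠ 0 := by positivity
      have e2 := mul_left_cancel₀ this e1
      rw [e2]; omega
    choose! u hu1 hu2 hu3 hu4 hu5 using hex
    have hinj : Set.InjOn u T := by
      intro v hv v' hv' he
      ext
      · rw [hu3 v hv, hu3 v' hv', he]
      · rw [hu4 v hv, hu4 v' hv', he]
    rw [← card_image_of_injOn hinj]
    refine (card_prim_norm hb hc hD hd0 _ ?_).trans ?_
    · intro v0 hv0
      rw [mem_image] at hv0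
      obtain ⟨v, hv, rfl⟩ := hv0
      exact ⟨hu1 v hv, hu2 v hv, hu5 v hv⟩
    · exact Nat.mul_le_mul_left _ (card_le_card (Nat.divisors_subset_of_dvd hn.ne' hdn))

end Pool.Agent.Lib.MP_648c71_nt.Hp
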