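import Pool.Agent.Lib.MP_648c71_nt.Lattice

/-!
The big cone `0 < re`, `0 ≤ im ≤ re` for `1 ≤ b`, `2 ≤ c`: everything is positive there.
Unimodular pairs `(p,q)` of the cone with index `sc p q = n` are determined by `nm p`.
-/

namespace Pool.Agent.Lib.MP_648c71_nt.Hp

open QuadraticAlgebra Finset

variable {b c : ℤ}

/-- the cone `0 < re`, `0 ≤ im ≤ re` -/
def InC (v : O b c) : Prop := 0 < v.re ∧ 0 ≤ v.im ∧ v.im ≤ v.re

instance (v : O b c) : Decidable (InC v) := by unfold InC; infer_instance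

/-- the constant `1 + b + c` -/
def C1 (b c : ℤ) : ℤ := 1 + b + c

theorem InC.sq_le_nm (hb : 1 ≤ b) (hc : 2 ≤ c) {v : O b c} (h : InC v) : v.re ^ 2 ≤ nm v := by
  obtain ⟨h1, h2, h3⟩ := h
  unfold nm
  have := mul_nonneg (mul_nonneg (by linarith : (0:ℤ) ≤ b) h1.le) h2
  have h4 : 0 ≤ c * v.im ^ 2 := by positivity
  linarith

theorem InC.im_sq_le_nm (hb : 1 ≤ b) (hc : 2 ≤ c) {v : O b c} (h : InC v) :
    c * v.im ^ 2 ≤ nm v := by
  obtain ⟨h1, h2, h3⟩ := h
  unfold nm
  have := mul_nonneg (mul_nonneg (by linarith : (0:ℤ) ≤ b) h1.le) h2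
  have h4 : 0 ≤ v.re ^ 2 := by positivity
  linarith

theorem InC.nm_le (hb : 1 ≤ b) (hc : 2 ≤ c) {v : O b c} (h : InC v) :
    nm v ≤ C1 b c * v.re ^ 2 := by
  obtain ⟨h1, h2, h3⟩ := h
  unfold nm C1
  have h4 : v.re * v.im ≤ v.re ^ 2 := by nlinarith
  have h5 : v.im ^ 2 ≤ v.re ^ 2 := by nlinarith
  nlinarith

theorem InC.nm_pos (hb : 1 ≤ b) (hc : 2 ≤ c) {v : O b c} (h : InC v) : 0 < nm v :=
  lt_of_lt_of_le (by have := h.1; positivity) (h.sq_le_nm hb hc)

theorem InC.ne_zero {v : O b c} (h : InC v) : v ≠ 0 := by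
  rintro rfl
  have := h.1
  simp at this

theorem mul_le_sc (hb : 1 ≤ b) (hc : 2 ≤ c) {v w : O b c} (hv : InC v) (hw : InC w) :
    v.re * w.re ≤ sc v w := by
  obtain ⟨h1, h2, h3⟩ := hv
  obtain ⟨g1, g2, g3⟩ := hw
  unfold sc
  have h4 : 0 ≤ b * v.im * w.re := by positivity
  have h5 : 0 ≤ c * v.im * w.im := by positivity
  linarith

theorem sc_le (hb : 1 ≤ b) (hc : 2 ≤ c) {v w : O b c} (hv : InC v) (hw : InC w) :
    sc v w ≤ C1 b c * (v.re * w.re) := by
  obtain ⟨h1, h2, h3⟩ := hv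
  obtain ⟨g1, g2, g3⟩ := hw
  unfold sc C1
  have h4 : v.im * w.re ≤ v.re * w.re := by nlinarith
  have h5 : v.im * w.im ≤ v.re * w.re := by nlinarith
  nlinarith

theorem sc_pos (hb : 1 ≤ b) (hc : 2 ≤ c) {v w : O b c} (hv : InC v) (hw : InC w) :
    0 < sc v w :=
  lt_of_lt_of_le (mul_pos hv.1 hw.1) (mul_le_sc hb hc hv hw)

theorem ff_pos (hb : 1 ≤ b) (hc : 2 ≤ c) {n : ℤ} (hn : 0 ≤ n) : 0 < ff b c n := by
  unfold ff
  positivity

theorem InC.add {v w : O b c} (hv : InC v) (hw : InC w) : InC (v + w) := by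
  obtain ⟨h1, h2, h3⟩ := hv
  obtain ⟨g1, g2, g3⟩ := hw
  refine ⟨?_, ?_, ?_⟩
  · rw [re_add]; linarith
  · rw [im_add]; linarith
  · rw [re_add, im_add]; linarith

/-- two elements of the cone of the same norm `d` have `|dt| < d` -/
theorem abs_dt_lt (hb : 1 ≤ b) (hc : 2 ≤ c) {v w : O b c} (hv : InC v) (hw : InC w)
    (h : nm v = nm w) : |dt v w| < nm v := by
  have a1 := hv.sq_le_nm hb hc
  have a2 := hw.sq_le_nm hb hc
  have a3 := hv.im_sq_le_nm hb hc
  have a4 := hw.im_sq_le_nm hb hc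
  have hpos := hv.nm_pos hb hc
  rw [← h] at a2 a4
  set d := nm v with hd
  obtain ⟨h1, h2, h3⟩ := hv
  obtain ⟨g1, g2, g3⟩ := hw
  -- each of the two products is `< d`
  have key : ∀ x y : ℤ, 0 ≤ x → 0 ≤ y → x ^ 2 ≤ d → c * y ^ 2 ≤ d → x * y < d := by
    intro x y hx hy hx2 hy2
    have h5 : 2 * y ^ 2 ≤ d := by nlinarith [sq_nonneg y]
    by_contra hle
    push Not at hle
    have h6 : d ^ 2 ≤ (x * y) ^ 2 := by
      apply pow_le_pow_left₀ hpos.le hle
    have h7 : (x * y) ^ 2 = x ^ 2 * y ^ 2 := by ring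
    have h8 : x ^ 2 * y ^ 2 ≤ d * y ^ 2 := by
      apply mul_le_mul_of_nonneg_right hx2 (by positivity)
    nlinarith
  have k1 := key v.re w.im h1.le g2 a1 a4
  have k2 := key w.re v.im g1.le h2 a2 a3
  have p1 : 0 ≤ v.re * w.im := by positivity
  have p2 : 0 ≤ w.re * v.im := by positivity
  unfold dt
  rw [abs_lt]
  constructor
  · have : v.im * w.re = w.re * v.im := mul_comm _ _
    linarith
  · have : v.im * w.re = w.re * v.im := mul_comm _ _
    linarith

/-- parallel primitive vectors of the cone are equal -/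
theorem eq_of_dt_eq_zero {v w : O b c} (hv : InC v) (hw : InC w)
    (cv : IsCoprime v.re v.im) (cw : IsCoprime w.re w.im) (h : dt v w = 0) : v = w := by
  unfold dt at h
  have h' : v.re * w.im = v.im * w.re := by linarith
  have d1 : v.re ∣ w.re := by
    have : v.re ∣ v.im * w.re := ⟨w.im, h'.symm⟩
    exact cv.dvd_of_dvd_mul_left this
  have d2 : w.re ∣ v.re := by
    have : w.re ∣ w.im * v.re := ⟨v.im, by rw [mul_comm w.im, h', mul_comm]⟩
    exact cw.dvd_of_dvd_mul_left this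
  have e1 : v.re = w.re :=
    Int.dvd_antisymm hv.1.le hw.1.le d1 d2
  have e2 : v.im = w.im := by
    rw [e1] at h'
    have : w.re ≠ 0 := ne_of_gt hw.1
    have h2 : w.re * w.im = w.re * v.im := by rw [h', mul_comm]
    exact (mul_left_cancel₀ this h2).symm
  ext
  · exact e1
  · exact e2

theorem isCoprime_left {p q : O b c} (h : dt p q = 1) : IsCoprime p.re p.im := by
  refine ⟨q.im, -q.re, ?_⟩
  unfold dt at h
  linarith

theorem isCoprime_right {p q : O b c} (h : dt p q = 1) : IsCoprime q.re q.im := by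
  refine ⟨-p.im, p.re, ?_⟩
  unfold dt at h
  linarith

/-- an edge of index `n`: the pair is determined by the norm of its first element -/
theorem edge_unique (hb : 1 ≤ b) (hc : 2 ≤ c) {p q p' q' : O b c} (hp : InC p) (hp' : InC p')
    (h : dt p q = 1) (h' : dt p' q' = 1) (hn : sc p q = sc p' q') (hnm : nm p = nm p') :
    p = p' ∧ q = q' := by
  have hpos := hp.nm_pos hb hc
  have s1 : star p * q = ⟨sc p q, 1⟩ := by rw [star_mul_eq, h]
  have s2 : star p' * q' = ⟨sc p' q', 1⟩ := by rw [star_mul_eq, h']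
  -- `p.re ≡ -(n+b) p.im`
  have key : ∀ p q : O b c, dt p q = 1 → nm p ∣ p.re + (sc p q + b) * p.im := by
    intro p q h
    refine ⟨q.im, ?_⟩
    have e : p.re + (sc p q + b) * p.im = p.re * dt p q + (sc p q + b * dt p q) * p.im := by
      rw [h]; ring
    rw [e]
    unfold nm sc dt
    ring
  have k1 := key p q h
  have k2 := key p' q' h'
  rw [← hn, ← hnm] at k2
  have hdvd : nm p ∣ dt p p' := by
    have e : dt p p' = (p.re + (sc p q + b) * p.im) * p'.im -
        (p'.re + (sc p q + b) * p'.im) * p.im := by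
      unfold dt; ring
    rw [e]
    exact dvd_sub (k1.mul_right _) (k2.mul_right _)
  have h0 : dt p p' = 0 := by
    apply Int.eq_zero_of_abs_lt_dvd hdvd
    exact abs_dt_lt hb hc hp hp' hnm
  have hpp : p = p' := eq_of_dt_eq_zero hp hp' (isCoprime_left h) (isCoprime_left h') h0
  refine ⟨hpp, ?_⟩
  subst hpp
  -- `star p * q = star p * q'`
  have e : star p * q = star p * q' := by rw [s1, s2, hn]
  have e2 : p * star p * q = p * star p * q' := by rw [mul_assoc, mul_assoc, e]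
  have e3 : p * star p = (⟨nm p, 0⟩ : O b c) := by
    ext
    · simp [nm]; ring
    · simp; ring
  rw [e3] at e2
  have r1 := congrArg QuadraticAlgebra.re e2
  have r2 := congrArg QuadraticAlgebra.im e2
  simp at r1 r2
  ext
  · rcases r1 with r1 | r1
    · exact r1
    · exact absurd r1 hpos.ne'
  · rcases r2 with r2 | r2
    · exact r2
    · exact absurd r2 hpos.ne'

/-- ROW. At most `τ(f(n))` edges of index `n`. -/
theorem edges_card (hb : 1 ≤ b) (hc : 2 ≤ c) {n : ℤ} (S : Finset (O b c × O b c))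
    (hS : ∀ e ∈ S, InC e.1 ∧ InC e.2 ∧ dt e.1 e.2 = 1 ∧ sc e.1 e.2 = n) :
    S.card ≤ (ff b c n).natAbs.divisors.card := by
  classical
  rcases S.eq_empty_or_nonempty with h0 | ⟨e0, he0⟩
  · rw [h0]; simp
  have hn : 0 < n := by
    obtain ⟨h1, h2, h3, h4⟩ := hS e0 he0
    rw [← h4]; exact sc_pos hb hc h1 h2
  have hfpos := ff_pos hb hc hn.le
  apply Finset.card_le_card_of_injOn (fun e => (nm e.1).natAbs)
  · intro e he
    obtain ⟨h1, h2, h3, h4⟩ := hS e he
    simp only [Finset.mem_coe, Nat.mem_divisors]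
    refine ⟨?_, by omega⟩
    apply Int.natAbs_dvd_natAbs.mpr
    rw [← h4, ← nm_mul_nm_of_dt h3]
    exact dvd_mul_right _ _
  · intro e he e' he' hee
    obtain ⟨h1, h2, h3, h4⟩ := hS e he
    obtain ⟨g1, g2, g3, g4⟩ := hS e' he'
    have hnm : nm e.1 = nm e'.1 := by
      have a := h1.nm_pos hb hc
      have a' := g1.nm_pos hb hc
      simp only at hee
      omega
    obtain ⟨r1, r2⟩ := edge_unique hb hc h1 g1 h3 g3 (h4.trans g4.symm) hnm
    exact Prod.ext r1 r2

end Pool.Agent.Lib.MP_648c71_nt.Hp
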