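import Pool.Agent.Lib.MP_648c71_nt.Hp.Cone

/-!
Root counts for `x² + bxy + cy²` modulo `d`.
-/

namespace Pool.Agent.Lib.MP_648c71_nt.Hp

open QuadraticAlgebra Finset

variable {b c : ℤ}

/-- residues `x` mod `d` with `d ∣ x² + bxy + cy²` -/
def rts (b c : ℤ) (d : ℕ) (y : ℤ) : Finset ℕ :=
  (range d).filter (fun x => (d : ℤ) ∣ (x : ℤ) ^ 2 + b * x * y + c * y ^ 2)

theorem sq_le_natAbs_of_dvd {h : ℕ} {D : ℤ} (hD : D ≠ 0) (hh : (h : ℤ) ^ 2 ∣ D) : h ≤ D.natAbs := by
  have h1 : ((h : ℤ) ^ 2).natAbs ∣ D.natAbs := Int.natAbs_dvd_natAbs.mpr hh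
  have h2 := Nat.le_of_dvd (Int.natAbs_pos.mpr hD) h1
  rw [Int.natAbs_pow, Int.natAbs_natCast] at h2
  nlinarith [Nat.zero_le h, sq_nonneg (h : ℤ), Nat.le_self_pow (two_ne_zero) h]

/-- at most `|D| τ(d)` roots modulo `d` -/
theorem card_rts (hD : b ^ 2 - 4 * c ≠ 0) {d : ℕ} (hd : 0 < d) (y : ℤ) (hy : IsCoprime y (d : ℤ)) :
    (rts b c d y).card ≤ (b ^ 2 - 4 * c).natAbs * d.divisors.card := by
  classical
  rcases (rts b c d y).eq_empty_or_nonempty with h0 | ⟨x0, hx0⟩
  · rw [h0]; simp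
  have hx0' : x0 < d ∧ (d : ℤ) ∣ (x0 : ℤ) ^ 2 + b * x0 * y + c * y ^ 2 := by
    simpa [rts] using hx0
  have hdZ : (d : ℤ) ≠ 0 := by exact_mod_cast hd.ne'
  apply Finset.card_le_mul_card_image_of_maps_to (f := fun x : ℕ => Int.gcd ((x : ℤ) - x0) d)
    (t := d.divisors)
  · intro x hx
    rw [Nat.mem_divisors]
    exact ⟨by exact_mod_cast Int.gcd_dvd_right (a := (x : ℤ) - x0) (b := (d : ℤ)), hd.ne'⟩
  · intro e he
    have hed : e ∣ d := (Nat.mem_divisors.mp he).1
    obtain ⟨e', he'⟩ := hed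
    have he0 : 0 < e := Nat.pos_of_ne_zero (by rintro rfl; simp at he'; omega)
    have he'0 : 0 < e' := Nat.pos_of_ne_zero (by rintro rfl; simp at he'; omega)
    set h := Nat.gcd e e' with hh
    have hh0 : 0 < h := Nat.gcd_pos_of_pos_left _ he0
    -- facts about the fibre
    have fact : ∀ x ∈ (rts b c d y).filter (fun x : ℕ => Int.gcd ((x : ℤ) - x0) d = e),
        x < d ∧ (e : ℤ) ∣ (x : ℤ) - x0 ∧ (e' : ℤ) ∣ (x : ℤ) + x0 + b * y := by
      intro x hx
      rw [mem_filter] at hx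
      obtain ⟨hx1, hx2⟩ := hx
      have hx1' : x < d ∧ (d : ℤ) ∣ (x : ℤ) ^ 2 + b * x * y + c * y ^ 2 := by
        simpa [rts] using hx1
      refine ⟨hx1'.1, ?_, ?_⟩
      · rw [← hx2]; exact Int.gcd_dvd_left _ _
      · have hdiff : (d : ℤ) ∣ ((x : ℤ) - x0) * ((x : ℤ) + x0 + b * y) := by
          have := dvd_sub hx1'.2 hx0'.2
          have e1 : (x : ℤ) ^ 2 + b * x * y + c * y ^ 2 - ((x0 : ℤ) ^ 2 + b * x0 * y + c * y ^ 2) =
            ((x : ℤ) - x0) * ((x : ℤ) + x0 + b * y) := by ring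
          rw [e1] at this
          exact this
        have hgcd : 0 < Int.gcd ((x : ℤ) - x0) (d : ℤ) := by rw [hx2]; exact he0
        obtain ⟨a', d', hcop, ha', hd'⟩ := Int.exists_gcd_one hgcd
        rw [hx2] at ha' hd'
        have hd'e : d' = e' := by
          have h1 : (e : ℤ) * e' = d' * e := by rw [← hd', he']; push_cast; ring
          have h2 : (e : ℤ) * e' = e * d' := by rw [h1]; ring
          exact (mul_left_cancel₀ (by exact_mod_cast he0.ne') h2).symm
        subst hd'e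
        have hdvd2 : (e' : ℤ) ∣ a' * ((x : ℤ) + x0 + b * y) := by
          obtain ⟨k, hk⟩ := hdiff
          refine ⟨k, ?_⟩
          have h3 : (e : ℤ) * (a' * ((x : ℤ) + x0 + b * y)) = e * (e' * k) := by
            calc (e : ℤ) * (a' * ((x : ℤ) + x0 + b * y)) = (a' * e) * ((x : ℤ) + x0 + b * y) := by ring
              _ = ((x : ℤ) - x0) * ((x : ℤ) + x0 + b * y) := by rw [← ha']
              _ = d * k := hk
              _ = e * (e' * k) := by rw [he']; push_cast; ring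
          exact mul_left_cancel₀ (by exact_mod_cast he0.ne') h3
        have hcop' : IsCoprime (e' : ℤ) a' := (Int.isCoprime_iff_gcd_eq_one.mpr hcop).symm
        exact hcop'.dvd_of_dvd_mul_left hdvd2
    rcases ((rts b c d y).filter (fun x : ℕ => Int.gcd ((x : ℤ) - x0) d = e)).eq_empty_or_nonempty
      with hE | ⟨x1, hx1⟩
    · rw [hE]; simp
    obtain ⟨hx1d, hx1e, hx1e'⟩ := fact x1 hx1
    -- `h ≤ |D|`
    have hhe : (h : ℤ) ∣ e := by exact_mod_cast Nat.gcd_dvd_left e e'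
    have hhe' : (h : ℤ) ∣ e' := by exact_mod_cast Nat.gcd_dvd_right e e'
    have hh2 : (h : ℤ) ∣ 2 * x0 + b * y := by
      have h1 := hhe.trans hx1e
      have h2 := hhe'.trans hx1e'
      have := dvd_sub h2 h1
      have e1 : (x1 : ℤ) + x0 + b * y - (x1 - x0) = 2 * x0 + b * y := by ring
      rwa [e1] at this
    have hhd : (h : ℤ) ^ 2 ∣ d := by
      rw [he', sq]; push_cast; exact mul_dvd_mul hhe hhe'
    have hhD : (h : ℤ) ^ 2 ∣ (b ^ 2 - 4 * c) * y ^ 2 := by
      have h1 : (h : ℤ) ^ 2 ∣ (2 * x0 + b * y) ^ 2 := pow_dvd_pow_of_dvd hh2 2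
      have h2 : (h : ℤ) ^ 2 ∣ 4 * ((x0 : ℤ) ^ 2 + b * x0 * y + c * y ^ 2) :=
        (hhd.trans hx0'.2).mul_left _
      have := dvd_sub h1 h2
      have e1 : (2 * (x0 : ℤ) + b * y) ^ 2 - 4 * ((x0 : ℤ) ^ 2 + b * x0 * y + c * y ^ 2) =
        (b ^ 2 - 4 * c) * y ^ 2 := by ring
      rwa [e1] at this
    have hcopy : IsCoprime ((h : ℤ) ^ 2) (y ^ 2) := by
      have h1 : IsCoprime (h : ℤ) y := by
        have : (h : ℤ) ∣ d := hhe.trans ⟨e', by rw [he']; push_cast; ring⟩
        exact (hy.of_isCoprime_of_dvd_right this).symm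
      exact h1.pow
    have hhle : h ≤ (b ^ 2 - 4 * c).natAbs :=
      sq_le_natAbs_of_dvd hD (hcopy.dvd_of_dvd_mul_right hhD)
    refine le_trans ?_ hhle
    -- the fibre injects into `range h`
    obtain ⟨e1, he1⟩ : h ∣ e := Nat.gcd_dvd_left e e'
    obtain ⟨e2, he2⟩ : h ∣ e' := Nat.gcd_dvd_right e e'
    set m := h * e1 * e2 with hm
    have hdm : d = h * m := by rw [he', he1, he2, hm]; ring
    have hm0 : 0 < m := Nat.pos_of_ne_zero (by rintro h5; rw [h5] at hdm; simp at hdm; omega)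
    have hlcm : m = Nat.lcm e e' := by
      have h1 : Nat.gcd e e' * Nat.lcm e e' = e * e' := Nat.gcd_mul_lcm e e'
      rw [← he', hdm, ← hh] at h1
      exact (Nat.eq_of_mul_eq_mul_left hh0 h1).symm
    rw [← card_range h]
    apply Finset.card_le_card_of_injOn (fun x => x / m)
    · intro x hx
      have := (fact x hx).1
      simp only [coe_range, Set.mem_Iio]
      rw [Nat.div_lt_iff_lt_mul hm0, ← hdm]
      exact this
    · intro x hx x' hx' hxx
      obtain ⟨f1, f2, f3⟩ := fact x hx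
      obtain ⟨g1, g2, g3⟩ := fact x' hx'
      have h1 : (e : ℤ) ∣ (x : ℤ) - x' := by
        have := dvd_sub f2 g2
        have e1 : (x : ℤ) - x0 - (x' - x0) = x - x' := by ring
        rwa [e1] at this
      have h2 : (e' : ℤ) ∣ (x : ℤ) - x' := by
        have := dvd_sub f3 g3
        have e1 : (x : ℤ) + x0 + b * y - (x' + x0 + b * y) = x - x' := by ring
        rwa [e1] at this
      have h3 : (m : ℤ) ∣ (x : ℤ) - x' := by
        rw [hlcm]
        have h4 : Int.natAbs e ∣ ((x : ℤ) - x').natAbs := Int.natAbs_dvd_natAbs.mpr h1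
        have h5 : Int.natAbs e' ∣ ((x : ℤ) - x').natAbs := Int.natAbs_dvd_natAbs.mpr h2
        rw [Int.natAbs_natCast] at h4 h5
        have h6 := Nat.lcm_dvd h4 h5
        exact Int.natCast_dvd.mpr h6
      have h4 : x ≡ x' [MOD m] := by
        rw [Nat.modEq_iff_dvd]
        have : (x' : ℤ) - x = -((x : ℤ) - x') := by ring
        rw [this]
        exact h3.neg_right
      have h5 : x % m = x' % m := h4
      have h6 := Nat.div_add_mod x m
      have h7 := Nat.div_add_mod x' m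
      simp only at hxx
      rw [hxx, h5] at h6
      omega

end Pool.Agent.Lib.MP_648c71_nt.Hp
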